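import Pool.Agent.D0H36.BL.Stm

/-!
# BL51, module ST: the structure lemma `S_STRUCT`

Author: helper22 (paper proof: helper36, see `Pool/Agent/D0H36/BL/Stm.lean`).
-/

set_option autoImplicit false

namespace Pool.Agent.D0H22.BL

open Finset Pool.Agent.D0H36.BL
open scoped Classical

variable {V : Type} [Fintype V]

/-- ordered adjacent pairs inside `S` -/
noncomputable def e2 (G : SimpleGraph V) (S : Finset V) : ℕ :=
  ((S ×ˢ S).filter (fun p => G.Adj p.1 p.2)).card

/-- the cliques inside `S` -/
noncomputable def cl (G : SimpleGraph V) (S : Finset V) : Finset (Finset V) :=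
  S.powerset.filter (fun K => ∀ a ∈ K, ∀ b ∈ K, a ≠ b → G.Adj a b)

theorem low {𝒞 : ∀ V : Type, SimpleGraph V → Prop} {d : ℕ} (c : Cls 𝒞 d) (G : SimpleGraph V)
    (hG : 𝒞 V G) (S : Finset V) (hS : S.Nonempty) :
    ∃ v ∈ S, (S.filter (fun w => G.Adj v w)).card ≤ d := by
  have : Nonempty {x // x ∈ S} := ⟨⟨hS.choose, hS.choose_spec⟩⟩
  obtain ⟨v, hv⟩ := c.deg {x // x ∈ S} (G.comap Subtype.val)
    (c.emb {x // x ∈ S} V Subtype.val Subtype.val_injective G hG)
  refine ⟨v.1, v.2, ?_⟩
  rw [← Set.ncard_coe_finset]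
  have h : (↑(S.filter (fun w => G.Adj v.1 w)) : Set V) =
      Subtype.val '' ((G.comap (Subtype.val : {x // x ∈ S} → V)).neighborSet v) := by
    ext w
    simp only [coe_filter, Set.mem_ofPred_eq, Set.mem_image, SimpleGraph.mem_neighborSet,
      SimpleGraph.comap_adj]
    constructor
    · rintro ⟨h1, h2⟩
      exact ⟨⟨w, h1⟩, h2, rfl⟩
    · rintro ⟨x, h1, rfl⟩
      exact ⟨x.2, h1⟩
  rw [h, Set.ncard_image_of_injective _ Subtype.val_injective]
  exact hv

theorem b1 {𝒞 : ∀ V : Type, SimpleGraph V → Prop} {d : ℕ} (c : Cls 𝒞 d) (G : SimpleGraph V)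
    (hG : 𝒞 V G) : ∀ (n : ℕ) (S : Finset V), S.card = n → e2 G S ≤ 2 * d * S.card := by
  intro n
  induction n with
  | zero =>
    intro S hS
    rw [card_eq_zero] at hS
    subst hS
    simp [e2]
  | succ n ih =>
    intro S hS
    have hne : S.Nonempty := card_pos.1 (by omega)
    obtain ⟨v, hv, hd⟩ := low c G hG S hne
    have h1 := ih (S.erase v) (by rw [card_erase_of_mem hv]; omega)
    have h2 : (S ×ˢ S).filter (fun p => G.Adj p.1 p.2) ⊆
        (((S.erase v) ×ˢ (S.erase v)).filter (fun p => G.Adj p.1 p.2)) ∪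
        ((S.filter (fun w => G.Adj v w)).image (fun w => (v, w)) ∪
          (S.filter (fun w => G.Adj v w)).image (fun w => (w, v))) := by
      rintro ⟨x, y⟩ hp
      simp only [mem_filter, mem_product] at hp
      obtain ⟨⟨hx, hy⟩, hxy⟩ := hp
      simp only [mem_union, mem_filter, mem_product, mem_erase, mem_image, Prod.mk.injEq]
      by_cases hxv : x = v
      · subst hxv
        exact Or.inr (Or.inl ⟨y, ⟨hy, hxy⟩, rfl, rfl⟩)
      · by_cases hyv : y = v
        · subst hyv
          exact Or.inr (Or.inr ⟨x, ⟨hx, hxy.symm⟩, rfl, rfl⟩)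
        · exact Or.inl ⟨⟨⟨hxv, hx⟩, ⟨hyv, hy⟩⟩, hxy⟩
    have h3 := card_le_card h2
    have h4 := h3.trans (card_union_le _ _)
    have h5 := card_union_le ((S.filter (fun w => G.Adj v w)).image (fun w => (v, w)))
          ((S.filter (fun w => G.Adj v w)).image (fun w => (w, v)))
    have h6 : ((S.filter (fun w => G.Adj v w)).image (fun w => (v, w))).card ≤ d :=
      card_image_le.trans hd
    have h7 : ((S.filter (fun w => G.Adj v w)).image (fun w => (w, v))).card ≤ d :=
      card_image_le.trans hd
    unfold e2 at h1 ⊢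
    rw [card_erase_of_mem hv, hS] at h1
    rw [hS]
    have h8 : 2 * d * (n + 1) = 2 * d * n + 2 * d := by ring
    have h9 : n + 1 - 1 = n := by omega
    rw [h9] at h1
    omega

theorem b2 {𝒞 : ∀ V : Type, SimpleGraph V → Prop} {d : ℕ} (c : Cls 𝒞 d) (G : SimpleGraph V)
    (hG : 𝒞 V G) : ∀ (n : ℕ) (S : Finset V), S.card = n → (cl G S).card ≤ 1 + 2 ^ d * S.card := by
  intro n
  induction n with
  | zero =>
    intro S hS
    rw [card_eq_zero] at hS
    subst hS
    have h : cl G ∅ ⊆ {∅} := by
      intro K hK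
      simp only [cl, mem_filter, powerset_empty, mem_singleton] at hK
      simp [hK.1]
    have := card_le_card h
    simpa using this
  | succ n ih =>
    intro S hS
    have hne : S.Nonempty := card_pos.1 (by omega)
    obtain ⟨v, hv, hd⟩ := low c G hG S hne
    have h1 := ih (S.erase v) (by rw [card_erase_of_mem hv]; omega)
    have h2 : cl G S ⊆ cl G (S.erase v) ∪
        ((S.filter (fun w => G.Adj v w)).powerset).image (fun K => insert v K) := by
      intro K hK
      simp only [cl, mem_filter, mem_powerset] at hK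
      obtain ⟨hKS, hK⟩ := hK
      simp only [mem_union, mem_image, mem_powerset]
      by_cases hvK : v ∈ K
      · right
        refine ⟨K.erase v, ?_, insert_erase hvK⟩
        intro w hw
        rw [mem_erase] at hw
        exact mem_filter.2 ⟨hKS hw.2, hK v hvK w hw.2 (fun h => hw.1 h.symm)⟩
      · left
        simp only [cl, mem_filter, mem_powerset]
        refine ⟨fun w hw => mem_erase.2 ⟨fun h => hvK (h ▸ hw), hKS hw⟩, hK⟩
    have h3 := (card_le_card h2).trans (card_union_le _ _)
    have h4 : (((S.filter (fun w => G.Adj v w)).powerset).image (fun K => insert v K)).card ≤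
        2 ^ d := by
      refine card_image_le.trans ?_
      rw [card_powerset]
      exact Nat.pow_le_pow_right (by norm_num) hd
    rw [card_erase_of_mem hv, hS] at h1
    rw [hS]
    have h9 : n + 1 - 1 = n := by omega
    rw [h9] at h1
    have h8 : 2 ^ d * (n + 1) = 2 ^ d * n + 2 ^ d := by ring
    omega

theorem b3 {𝒞 : ∀ V : Type, SimpleGraph V → Prop} {d : ℕ} (c : Cls 𝒞 d) (H : Finset V) :
    ∀ (n : ℕ) (G : SimpleGraph V) (_ : 𝒞 V G) (I : Finset V), I.card = n → Disjoint I H →
      (∀ v ∈ I, ∀ w, G.Adj v w → w ∈ H) →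
      (∀ v ∈ I, ∀ w ∈ I, (∀ x, G.Adj v x ↔ G.Adj w x) → v = w) →
      2 * I.card + e2 G H ≤ (2 * d + 2 * 2 ^ d) * H.card + 2 := by
  intro n
  induction n with
  | zero =>
    intro G hG I hI _ _ _
    have h1 := b1 c G hG _ H rfl
    have h2 : 2 * d * H.card ≤ (2 * d + 2 * 2 ^ d) * H.card :=
      Nat.mul_le_mul_right _ (by omega)
    omega
  | succ n ih =>
    intro G hG I hI hdis hN hinj
    by_cases hcase : ∃ v ∈ I, ∃ a b, a ≠ b ∧ G.Adj v a ∧ G.Adj v b ∧ ¬ G.Adj a b
    · obtain ⟨v, hv, a, b, hab, hva, hvb, hnab⟩ := hcase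
      have haH : a ∈ H := hN v hv a hva
      have hbH : b ∈ H := hN v hv b hvb
      have hvH : v ∉ H := Finset.disjoint_left.1 hdis hv
      have hG' := c.ctr V G a v hva.symm hG
      have hnbr : ∀ w ∈ I.erase v, ∀ y, (ctr G a v).Adj w y ↔ G.Adj w y := by
        intro w hw y
        rw [mem_erase] at hw
        have hwH : w ∉ H := Finset.disjoint_left.1 hdis hw.2
        rw [ctr_adj]
        constructor
        · rintro ⟨h1, h2, h3, h4 | ⟨h5, _⟩ | ⟨_, h5⟩⟩
          · exact h4
          · exact absurd (h5 ▸ haH) hwH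
          · exact absurd (hN v hv w h5) hwH
        · intro h
          refine ⟨hw.1, ?_, h.ne, Or.inl h⟩
          rintro rfl
          exact hwH (hN y hv w h.symm)
      have h1 := ih (ctr G a v) hG' (I.erase v) (by rw [card_erase_of_mem hv]; omega)
        (Finset.disjoint_of_subset_left (erase_subset _ _) hdis)
        (fun w hw y hy => hN w (mem_of_mem_erase hw) y ((hnbr w hw y).1 hy))
        (fun w hw z hz h => hinj w (mem_of_mem_erase hw) z (mem_of_mem_erase hz)
          (fun x => by rw [← hnbr w hw x, ← hnbr z hz x]; exact h x))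
      have h2 : e2 G H + 2 ≤ e2 (ctr G a v) H := by
        unfold e2
        have hsub : insert (a, b) (insert (b, a) ((H ×ˢ H).filter (fun p => G.Adj p.1 p.2))) ⊆
            (H ×ˢ H).filter (fun p => (ctr G a v).Adj p.1 p.2) := by
          intro p hp
          have hav : a ≠ v := fun h => hvH (h ▸ haH)
          have hbv : b ≠ v := fun h => hvH (h ▸ hbH)
          rw [mem_insert, mem_insert] at hp
          rcases hp with rfl | rfl | hp
          · exact mem_filter.2 ⟨mem_product.2 ⟨haH, hbH⟩,
              (ctr_adj G a v a b).2 ⟨hav, hbv, hab, Or.inr (Or.inl ⟨rfl, hvb⟩)⟩⟩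
          · exact mem_filter.2 ⟨mem_product.2 ⟨hbH, haH⟩,
              (ctr_adj G a v b a).2 ⟨hbv, hav, hab.symm, Or.inr (Or.inr ⟨rfl, hvb⟩)⟩⟩
          · obtain ⟨h3, h4⟩ := mem_filter.1 hp
            obtain ⟨h5, h6⟩ := mem_product.1 h3
            refine mem_filter.2 ⟨h3, (ctr_adj G a v p.1 p.2).2 ⟨?_, ?_, h4.ne, Or.inl h4⟩⟩
            · intro h; exact hvH (h ▸ h5)
            · intro h; exact hvH (h ▸ h6)
        have h3 := card_le_card hsub
        rw [card_insert_of_notMem, card_insert_of_notMem] at h3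
        · omega
        · intro h
          exact hnab (mem_filter.1 h).2.symm
        · intro h
          rw [mem_insert] at h
          rcases h with h | h
          · exact hab (Prod.mk.inj h).1
          · exact hnab (mem_filter.1 h).2
      rw [card_erase_of_mem hv] at h1
      omega
    · push Not at hcase
      have h1 := b1 c G hG _ H rfl
      have h2 := b2 c G hG _ H rfl
      have h3 : I.card ≤ (cl G H).card := by
        refine card_le_card_of_injOn (fun v => univ.filter (fun w => G.Adj v w)) ?_ ?_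
        · intro v hv
          have hv' : v ∈ I := hv
          show (univ.filter (fun w => G.Adj v w)) ∈ (cl G H : Finset (Finset V))
          simp only [cl, mem_filter, mem_powerset]
          refine ⟨fun w hw => hN v hv' w (by simpa using hw), ?_⟩
          intro a ha b hb hab
          have ha' : G.Adj v a := by simpa using ha
          have hb' : G.Adj v b := by simpa using hb
          exact hcase v hv' a b hab ha' hb'
        · intro v hv w hw h
          refine hinj v hv w hw (fun x => ?_)
          have h4 : x ∈ univ.filter (fun w => G.Adj v w) ↔ x ∈ univ.filter (fun z => G.Adj w z) := by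
            rw [show (univ.filter (fun w => G.Adj v w)) = univ.filter (fun z => G.Adj w z) from h]
          simpa using h4
      have h5 : (2 * d + 2 * 2 ^ d) * H.card = 2 * d * H.card + 2 * (2 ^ d * H.card) := by ring
      omega

theorem t_STRUCT : S_STRUCT := by
  intro 𝒞 d c
  refine ⟨8 * (d + 1) * (1 + d + 2 ^ d), ?_⟩
  intro V _ G hG hn
  set D := 8 * (d + 1) * (1 + d + 2 ^ d) with hD
  have : Fintype V := Fintype.ofFinite V
  rw [Nat.card_eq_fintype_card] at hn ⊢
  -- degrees
  have hdeg : ∀ v, (G.neighborSet v).ncard = (univ.filter (fun w => G.Adj v w)).card := by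
    intro v
    rw [← Set.ncard_coe_finset]
    congr 1
    ext w
    simp
  set Hi : Finset V := univ.filter (fun v => D < (univ.filter (fun w => G.Adj v w)).card) with hHi
  set L1 : Finset V := univ.filter (fun v => v ∉ Hi ∧ ∃ w, w ∉ Hi ∧ G.Adj v w) with hL1
  set L' : Finset V := univ.filter (fun v => v ∉ Hi ∧ ∀ w, G.Adj v w → w ∈ Hi) with hL'
  have hsum : Fintype.card V ≤ Hi.card + L1.card + L'.card := by
    have h1 : (univ : Finset V) ⊆ Hi ∪ L1 ∪ L' := by
      intro v _
      simp only [mem_union]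
      by_cases h1 : v ∈ Hi
      · exact Or.inl (Or.inl h1)
      · by_cases h2 : ∃ w, w ∉ Hi ∧ G.Adj v w
        · exact Or.inl (Or.inr (mem_filter.2 ⟨mem_univ _, h1, h2⟩))
        · push Not at h2
          refine Or.inr (mem_filter.2 ⟨mem_univ _, h1, fun w hw => ?_⟩)
          by_contra h3
          exact h2 w h3 hw
    have h2 := card_le_card h1
    rw [card_univ] at h2
    exact h2.trans ((card_union_le _ _).trans (Nat.add_le_add_right (card_union_le _ _) _))
  -- few vertices of high degree
  have hHiD : Hi.card * D ≤ 2 * (d + 1) * Fintype.card V := by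
    have h1 := b1 c G hG _ univ rfl
    have h2 : e2 G univ = ∑ v, (univ.filter (fun w => G.Adj v w)).card := by
      unfold e2
      rw [card_filter, sum_product]
      refine sum_congr rfl (fun v _ => ?_)
      rw [card_filter]
    have h3 : Hi.card * D ≤ ∑ v ∈ Hi, (univ.filter (fun w => G.Adj v w)).card := by
      rw [← smul_eq_mul]
      refine card_nsmul_le_sum _ _ _ (fun v hv => ?_)
      exact (mem_filter.1 hv).2.le
    have h4 : ∑ v ∈ Hi, (univ.filter (fun w => G.Adj v w)).card ≤
        ∑ v, (univ.filter (fun w => G.Adj v w)).card :=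
      sum_le_sum_of_subset (subset_univ _)
    rw [h2, card_univ] at h1
    have h5 : 2 * d * Fintype.card V ≤ 2 * (d + 1) * Fintype.card V :=
      Nat.mul_le_mul_right _ (by omega)
    omega
  have hHi4 : 4 * ((1 + d + 2 ^ d) * Hi.card) ≤ Fintype.card V := by
    have h1 : 2 * (d + 1) * (4 * ((1 + d + 2 ^ d) * Hi.card)) ≤
        2 * (d + 1) * Fintype.card V := by
      calc 2 * (d + 1) * (4 * ((1 + d + 2 ^ d) * Hi.card)) = Hi.card * D := by
            rw [hD]; ring
        _ ≤ _ := hHiD
    exact Nat.le_of_mul_le_mul_left h1 (by omega)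
  -- the light edges
  have hLL : L1.card ≤ (LL D G).ncard := by
    choose! f hf using (fun v (hv : v ∈ L1) => (mem_filter.1 hv).2.2)
    have h1 : (↑(L1.image (fun v => (v, f v))) : Set (V × V)) ⊆ LL D G := by
      intro p hp
      rw [mem_coe, mem_image] at hp
      obtain ⟨v, hv, rfl⟩ := hp
      have h2 := (mem_filter.1 hv).2.1
      have h3 := (hf v hv).1
      refine ⟨(hf v hv).2, ?_, ?_⟩
      · rw [hdeg]
        by_contra h
        exact h2 (mem_filter.2 ⟨mem_univ _, not_le.1 h⟩)
      · rw [hdeg]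
        by_contra h
        exact h3 (mem_filter.2 ⟨mem_univ _, not_le.1 h⟩)
    have h2 := Set.ncard_le_ncard h1 (Set.toFinite _)
    rw [Set.ncard_coe_finset, card_image_of_injective _
      (fun a b h => (Prod.mk.inj h).1)] at h2
    exact h2
  -- representatives
  let φ : V → Finset V := fun v => univ.filter (fun w => G.Adj v w)
  have hφ : ∀ v w, φ v = φ w ↔ ∀ x, G.Adj v x ↔ G.Adj w x := by
    intro v w
    constructor
    · intro h x
      have : x ∈ φ v ↔ x ∈ φ w := by rw [h]
      simpa [φ] using this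
    · intro h
      ext x
      simp [φ, h x]
  obtain ⟨R, hR1, hR2, hR3⟩ : ∃ R ⊆ L', Set.InjOn φ R ∧ L'.image φ = R.image φ := by
    obtain ⟨u, hu1, hu2, hu3⟩ := Finset.exists_subset_injOn_image_eq_of_surjOn (f := φ)
      (↑L' : Set V) (L'.image φ) (by
        intro y hy
        rw [mem_coe, mem_image] at hy
        obtain ⟨x, hx, rfl⟩ := hy
        exact ⟨x, hx, rfl⟩)
    exact ⟨u, by exact_mod_cast hu1, hu2, hu3.symm⟩
  have hRc : 2 * R.card ≤ (2 * d + 2 * 2 ^ d) * Hi.card + 2 := by
    have h1 := b3 c Hi _ G hG R rfl (by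
        rw [Finset.disjoint_left]
        intro v hv
        exact (mem_filter.1 (hR1 hv)).2.1)
      (fun v hv => (mem_filter.1 (hR1 hv)).2.2)
      (fun v hv w hw h => hR2 hv hw ((hφ v w).2 h))
    omega
  have hTW : L'.card - R.card ≤ (TW G).ncard := by
    rw [← card_sdiff_of_subset hR1]
    have h0 : ∀ v ∈ L' \ R, ∃ r ∈ R, φ r = φ v := by
      intro v hv
      have h1 : φ v ∈ L'.image φ := mem_image_of_mem _ (mem_sdiff.1 hv).1
      rw [hR3] at h1
      exact mem_image.1 h1
    choose! g hg using h0
    have h1 : (↑((L' \ R).image (fun v => (v, g v))) : Set (V × V)) ⊆ TW G := by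
      intro p hp
      rw [mem_coe, mem_image] at hp
      obtain ⟨v, hv, rfl⟩ := hp
      obtain ⟨h2, h3⟩ := hg v hv
      refine ⟨?_, ?_⟩
      · intro h
        have h4 : v = g v := h
        exact (mem_sdiff.1 hv).2 (h4 ▸ h2)
      · ext x
        exact ((hφ _ _).1 h3 x).symm
    have h2 := Set.ncard_le_ncard h1 (Set.toFinite _)
    rw [Set.ncard_coe_finset, card_image_of_injective _
      (fun a b h => (Prod.mk.inj h).1)] at h2
    exact h2
  have e1 : (2 * d + 2 * 2 ^ d) * Hi.card = 2 * ((d + 2 ^ d) * Hi.card) := by ring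
  have e2' : (1 + d + 2 ^ d) * Hi.card = Hi.card + (d + 2 ^ d) * Hi.card := by ring
  omega

end Pool.Agent.D0H22.BL
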